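import Pool.Agent.Lib.MP_188651_an.CSol

/-!
# MP_188651_an: exactly one bounded positive Robin solution on large dilations, uniformly in `α`
-/

open Set Filter Metric Topology InnerProductSpace Laplacian
open scoped Pointwise

namespace Pool.Agent.Results.MP_188651_an.ExistsUnique

open Pool.Agent.Lib.MP_188651_an

/-- For every positive reaction `f` of class `C¹` and every uniformly `C²` domain `Ω ⊆ ℝⁿ` there is a
threshold `κ₀`, independent of `α`, such that for all `α > 0` and all `κ > κ₀` the `α`-Robin problem on `κ Ω` has
a bounded positive classical solution `u` (`C²` inside, `C¹` up to the boundary), and every bounded positive solution,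
also in the weaker sense `IsSol` in which only the outward normal derivative exists at the boundary, is equal
to `u`. -/
theorem result (n : ℕ) (hn : 1 ≤ n) (f : ℝ → ℝ) (hf : IsPositiveReaction f) (Ω : Set (EE n))
    (hopen : IsOpen Ω) (hconn : IsConnected Ω) (hΩ : IsUniformlyC2 Ω) :
    ∃ κ₀ : ℝ, 0 < κ₀ ∧ ∀ α κ : ℝ, 0 < α → κ₀ < κ → ∃ u : EE n → ℝ, IsClassical f α (κ • Ω) u ∧
      ∀ v : EE n → ℝ, IsSol f α (κ • Ω) v → ∀ x ∈ closure (κ • Ω), v x = u x :=
  exists_unique_classical hn hf hopen hconn hΩ

end Pool.Agent.Results.MP_188651_an.ExistsUnique
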